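import Pool.Agent.N783.PF.Loc
import Pool.Agent.N891.PQ.TwA
import Pool.Agent.N457.PQ.Sqt
import Pool.Agent.N498.PP.Lin
import Pool.Agent.N874.PP.Lat

/-!
# Project PF (helper783), part CORE (helper771): the choice of the twist

After `N891/PQ/Tw.lean` of helper891, `N874/JM/Core.lean` of helper874 and `N352/PJ/Sel.lean` of
helper352.
-/

set_option autoImplicit false
set_option linter.all false

open Polynomial IsDedekindDomain Matrix NumberField WithZero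
open scoped Classical

namespace Pool.Agent.N771.PF

open Pool.Agent.N352.PJ (Mt Typ dd)
open Pool.Agent.N874.PP (Ev Sq1 U0 S_LIN)
open Pool.Agent.N783.PQ (LocIm)
open Pool.Agent.N874.JM (LocF)
open Pool.Agent.N783.PF
open Pool.Agent.N891.PQ (cl cl_add_aux not_ev_exp locIm_one)

theorem locF_one {M : Type} (E : Type) [Field M] [Field E] [Algebra M E] (f : M[X]) :
    LocF E f 1 := by
  have h := locIm_one E (f.map (algebraMap M E))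
  have e : (1 : M[X]).map (algebraMap M E) = 1 := Polynomial.map_one _
  rw [← e] at h
  exact h

theorem locF_mul {M : Type} {E : Type} [Field M] [Field E] [Algebra M E] {f h h' : M[X]}
    (H : LocF E f h) (H' : LocF E f h') : LocF E f (h * h') := by
  have h1 := Pool.Agent.N891.PQ.LocIm.mul (F := E) (f := f.map (algebraMap M E)) H H'
  rw [← Polynomial.map_mul] at h1
  exact h1

variable {F : Type} [Field F] [NumberField F]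

/-- the residues modulo `𝔮 q` -/
theorem cg_q {g B W : ℕ} {f₁ f : (𝓞 F)[X]} {S : Finset ℕ} {𝔮 : ℕ → Ideal (𝓞 F)}
    {r P : ℕ → (𝓞 F)[X]} (hS : GoodS g W S 𝔮 r P) (hF : Fam g B W f₁ S P f) :
    ∀ q ∈ S, Cg (𝔮 q) f (X * r q) := by
  intro q hq j
  obtain ⟨-, -, -, -, -, -, hmem, -, -, -, -, -, -, hcg, -⟩ := hS q hq
  have h1 := hF.con q hq j
  have h2 : sp F q ≤ 𝔮 q := by
    rw [sp, Ideal.span_singleton_le_iff_mem]
    exact hmem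
  have h3 := Ideal.add_mem _ (h2 h1) (hcg j)
  have e : f.coeff j - (X * r q).coeff j =
      f.coeff j - (P q).coeff j + ((P q).coeff j - (X * r q).coeff j) := by ring
  rw [e]
  exact h3

theorem rd_eq {𝔞 : Ideal (𝓞 F)} {f f' : (𝓞 F)[X]} (h : Cg 𝔞 f f') : rd 𝔞 f = rd 𝔞 f' := by
  ext j
  rw [coeff_map, coeff_map, Ideal.Quotient.mk_eq_mk_iff_sub_mem]
  exact h j

/-- `X * irreducible` is separable -/
theorem sep_q {g W : ℕ} {f : (𝓞 F)[X]} {S : Finset ℕ} {𝔮 : ℕ → Ideal (𝓞 F)}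
    {r P : ℕ → (𝓞 F)[X]} (hg : 1 ≤ g) (hS : GoodS g W S 𝔮 r P) {q : ℕ} (hq : q ∈ S)
    (hcg : Cg (𝔮 q) f (X * r q)) : (𝔮 q) ≠ ⊥ ∧ (rd (𝔮 q) f).Separable := by
  obtain ⟨hqp, -, -, -, -, hpr, hmem, hrm, hrd, hirr, -⟩ := hS q hq
  have hbot : 𝔮 q ≠ ⊥ := by
    intro h0
    rw [h0, Ideal.mem_bot] at hmem
    exact hqp.ne_zero (by exact_mod_cast hmem)
  refine ⟨hbot, ?_⟩
  haveI := hpr
  haveI hmax : (𝔮 q).IsMaximal := hpr.isMaximal hbot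
  haveI hfin : Finite (𝓞 F ⧸ 𝔮 q) := Ideal.finiteQuotientOfFreeOfNeBot _ hbot
  letI : Field (𝓞 F ⧸ 𝔮 q) := Ideal.Quotient.field _
  rw [rd_eq hcg]
  have e : rd (𝔮 q) (X * r q) = X * rd (𝔮 q) (r q) := by
    rw [rd, Polynomial.map_mul, map_X]
  rw [e]
  have hm : (rd (𝔮 q) (r q)).Monic := hrm.map _
  have hd : (rd (𝔮 q) (r q)).natDegree = 2 * g := by
    rw [rd, hrm.natDegree_map, hrd]
  refine (separable_X).mul (PerfectField.separable_of_irreducible hirr) ?_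
  rw [(irreducible_X).coprime_iff_not_dvd]
  intro hdv
  have h1 : Associated X (rd (𝔮 q) (r q)) := (irreducible_X).associated_of_dvd hirr hdv
  have h2 := natDegree_eq_of_degree_eq (degree_eq_degree_of_associated h1)
  rw [hd, natDegree_X] at h2
  omega

theorem core (hEXQ : S_EXQ) (hNS : S_NS) (hREC : S_REC) (hSD : S_SD) (hTV : S_TV)
    (hLB : S_LB) : S_CORE := by
  have hCLS := Pool.Agent.N457.PQ.cls
  have hLIN := Pool.Agent.N498.PP.lin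
  intro g F _ _ hg
  obtain ⟨κ, hκ⟩ := hLB g F hg
  refine ⟨κ, fun L _ _ _ f f₁ θ B N W S 𝔮 r P hκW hc hsq hf₁ hS hF hBN hB hnb => ?_⟩
  have hqp : ∀ q ∈ S, q.Prime := fun q hq => (hS q hq).1
  have hq2 : ∀ q ∈ S, q ≠ 2 := by
    intro q hq h
    have := (hS q hq).2.2.2.1
    rw [h] at this
    omega
  have hcg := cg_q hS hF
  have hov : ∀ q ∈ S, ∀ 𝔓 : HeightOneSpectrum (𝓞 L), Ov (𝔮 q) 𝔓 → Pool.Agent.N783.PQ.Ov q 𝔓 := by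
    intro q hq 𝔓 h
    have h1 := h _ (hS q hq).2.2.2.2.2.2.1
    rw [map_natCast] at h1
    exact h1
  have huniq : ∀ q ∈ S, ∀ q' ∈ S, ∀ 𝔓 : HeightOneSpectrum (𝓞 L), Ov (𝔮 q) 𝔓 → Ov (𝔮 q') 𝔓 →
      q = q' := by
    intro q hq q' hq' 𝔓 h h'
    by_contra hne
    have h1 : (q : 𝓞 L) ∈ 𝔓.asIdeal := hov q hq 𝔓 h
    have h2 : (q' : 𝓞 L) ∈ 𝔓.asIdeal := hov q' hq' 𝔓 h'
    have hco : Nat.Coprime q q' := (Nat.coprime_primes (hqp q hq) (hqp q' hq')).2 hne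
    have h3 : IsCoprime (q : ℤ) (q' : ℤ) := Nat.isCoprime_iff_coprime.2 hco
    obtain ⟨a, b, hab⟩ := h3
    apply 𝔓.isPrime.ne_top
    rw [Ideal.eq_top_iff_one]
    have h4 : (1 : 𝓞 L) = (a : 𝓞 L) * (q : 𝓞 L) + (b : 𝓞 L) * (q' : 𝓞 L) := by
      have := congrArg (fun z : ℤ => (z : 𝓞 L)) hab
      push_cast at this
      exact this.symm
    rw [h4]
    exact Ideal.add_mem _ (Ideal.mul_mem_left _ _ h1) (Ideal.mul_mem_left _ _ h2)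
  have hex : ∀ q ∈ S, ∃ 𝔓₁ 𝔔 : HeightOneSpectrum (𝓞 L), Ov (𝔮 q) 𝔓₁ ∧ Ov (𝔮 q) 𝔔 ∧
      𝔓₁.valuation L θ < 1 ∧ 𝔔.valuation L θ = 1 ∧ ¬ Ev 𝔔 ((q : L) * θ) ∧
      ∀ 𝔓 : HeightOneSpectrum (𝓞 L), Ov (𝔮 q) 𝔓 → 𝔓 = 𝔓₁ ∨ 𝔓 = 𝔔 := by
    intro q hq
    obtain ⟨𝔓₁, 𝔔, a1, a2, a3, a4, a5, a6, a7⟩ :=
      hEXQ g W F L f θ S 𝔮 r P hg hc hsq hS q hq (hcg q hq)
    refine ⟨𝔓₁, 𝔔, a1, a2, a3, a4, not_ev_exp ?_, a7⟩
    rw [map_mul, a6, a4, mul_one]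
  haveI hne : Nonempty (HeightOneSpectrum (𝓞 L)) := by
    obtain ⟨m, hm⟩ := Ideal.exists_maximal (𝓞 L)
    exact ⟨⟨m, hm.isPrime, Ring.ne_bot_of_isMaximal_of_not_isField hm
      (NumberField.RingOfIntegers.not_isField L)⟩⟩
  obtain ⟨𝔭, h𝔭⟩ : ∃ 𝔭 : ℕ → HeightOneSpectrum (𝓞 L), 𝔭 = fun q =>
    if hq : q ∈ S then (hex q hq).choose else Classical.arbitrary _ := ⟨_, rfl⟩
  obtain ⟨𝔔, h𝔔⟩ : ∃ 𝔔 : ℕ → HeightOneSpectrum (𝓞 L), 𝔔 = fun q =>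
    if hq : q ∈ S then (hex q hq).choose_spec.choose else Classical.arbitrary _ := ⟨_, rfl⟩
  have hpq : ∀ q ∈ S, Ov (𝔮 q) (𝔭 q) ∧ Ov (𝔮 q) (𝔔 q) ∧ (𝔭 q).valuation L θ < 1 ∧
      (𝔔 q).valuation L θ = 1 ∧ ¬ Ev (𝔔 q) ((q : L) * θ) ∧
      ∀ 𝔓 : HeightOneSpectrum (𝓞 L), Ov (𝔮 q) 𝔓 → 𝔓 = 𝔭 q ∨ 𝔓 = 𝔔 q := by
    intro q hq
    have h := (hex q hq).choose_spec.choose_spec
    rw [h𝔭, h𝔔]
    simp only [dif_pos hq]
    exact h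
  -- the group `M`
  obtain ⟨M, hMd⟩ : ∃ M : Set L, M = {α | α ≠ 0 ∧ IsSquare (Algebra.norm F α) ∧
    (∀ 𝔓 : HeightOneSpectrum (𝓞 L), (∀ q ∈ S, 𝔓 ≠ 𝔔 q) → Ev 𝔓 α) ∧
    ∃ h₀ : F[X], aeval θ h₀ = α ∧ (∀ w : HeightOneSpectrum (𝓞 F), (2 : 𝓞 F) ∈ w.asIdeal →
      LocF (w.adicCompletion F) (fF f) h₀) ∧
      (∀ σ : F →+* ℝ, LocIm ℝ ((fF f).map σ) (h₀.map σ))} := ⟨_, rfl⟩
  have hMm : ∀ α, α ∈ M ↔ α ≠ 0 ∧ IsSquare (Algebra.norm F α) ∧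
    (∀ 𝔓 : HeightOneSpectrum (𝓞 L), (∀ q ∈ S, 𝔓 ≠ 𝔔 q) → Ev 𝔓 α) ∧
    ∃ h₀ : F[X], aeval θ h₀ = α ∧ (∀ w : HeightOneSpectrum (𝓞 F), (2 : 𝓞 F) ∈ w.asIdeal →
      LocF (w.adicCompletion F) (fF f) h₀) ∧
      (∀ σ : F →+* ℝ, LocIm ℝ ((fF f).map σ) (h₀.map σ)) := by
    intro α
    rw [hMd]
    rfl
  obtain ⟨ψ, hψd⟩ : ∃ ψ : L → (S → ZMod 2 × ZMod 2), ψ = fun (α : L) (q : S) =>
    cl (𝔔 (q : ℕ)) (((q : ℕ) : L) * θ) α := ⟨_, rfl⟩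
  have hϖ : ∀ q ∈ S, (q : L) * θ ≠ 0 := by
    intro q hq h0
    exact (hpq q hq).2.2.2.2.1 (by rw [h0]; exact ⟨0, by simp⟩)
  have hψ : ∀ α β : L, α ≠ 0 → β ≠ 0 → ψ (α * β) = ψ α + ψ β := by
    intro α β hα hβ
    rw [hψd]
    funext q
    have h := hCLS L q (𝔔 q) ((q : L) * θ) (hqp q q.2) (hq2 q q.2)
      (hov q q.2 _ (hpq q q.2).2.1) (hϖ q q.2) (hpq q q.2).2.2.2.2.1 α β hα hβ
    exact Prod.ext (cl_add_aux h.1) (cl_add_aux h.2)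
  have hEvmul : ∀ (𝔓 : HeightOneSpectrum (𝓞 L)) (x y : L), Ev 𝔓 x → Ev 𝔓 y → Ev 𝔓 (x * y) := by
    rintro 𝔓 x y ⟨u, hu⟩ ⟨v, hv⟩
    exact ⟨u * v, by rw [map_mul, map_mul, hu, hv, mul_pow]⟩
  have hMmul : ∀ α β, α ∈ M → β ∈ M → α * β ∈ M := by
    intro α β hα hβ
    rw [hMm] at hα hβ ⊢
    obtain ⟨h1, h2, h3, a, h4, h5, h6⟩ := hα
    obtain ⟨h1', h2', h3', b, h4', h5', h6'⟩ := hβ
    refine ⟨mul_ne_zero h1 h1', ?_, fun 𝔓 h𝔓 => hEvmul 𝔓 _ _ (h3 𝔓 h𝔓) (h3' 𝔓 h𝔓), a * b, ?_, ?_, ?_⟩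
    · rw [map_mul]
      exact h2.mul h2'
    · rw [map_mul, h4, h4']
    · intro w hw
      exact locF_mul (h5 w hw) (h5' w hw)
    · intro σ
      rw [Polynomial.map_mul]
      exact Pool.Agent.N891.PQ.LocIm.mul (h6 σ) (h6' σ)
  have hM1 : (1 : L) ∈ M := by
    rw [hMm]
    refine ⟨one_ne_zero, by rw [map_one]; exact IsSquare.one, fun 𝔓 _ => ⟨1, by rw [map_one, one_pow]⟩,
      1, by rw [map_one], ?_, ?_⟩
    · intro w _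
      exact locF_one _ _
    · intro σ
      rw [Polynomial.map_one]
      exact locIm_one _ _
  let Λ : AddSubgroup (S → ZMod 2 × ZMod 2) :=
    { carrier := {l | ∃ α ∈ M, ψ α = l}
      add_mem' := by
        rintro _ _ ⟨α, hα, rfl⟩ ⟨β, hβ, rfl⟩
        exact ⟨α * β, hMmul α β hα hβ, hψ α β ((hMm α).1 hα).1 ((hMm β).1 hβ).1⟩
      zero_mem' := by
        refine ⟨1, hM1, ?_⟩
        have h := hψ 1 1 one_ne_zero one_ne_zero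
        rw [mul_one] at h
        exact left_eq_add.1 h
      neg_mem' := by
        rintro _ ⟨α, hα, rfl⟩
        refine ⟨α, hα, ?_⟩
        rw [eq_neg_iff_add_eq_zero]
        funext Q
        exact Prod.ext (CharTwo.add_self_eq_zero _) (CharTwo.add_self_eq_zero _) }
  have hiso : ∀ l ∈ Λ, ∑ q : S, (l q).1 * (l q).2 = 0 := by
    rintro _ ⟨α, hα, rfl⟩
    obtain ⟨b1, b2, b3, h₀, b4, b5, b6⟩ := (hMm α).1 hα
    have h := hREC g W F L f θ S 𝔮 r P hg hc hsq hS hF.con 𝔔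
      (fun q hq => ⟨(hpq q hq).2.1, (hpq q hq).2.2.2.1⟩) h₀ (by rw [b4]; exact b1)
      (by rw [b4]; exact b2) (by rw [b4]; exact b3) b5 b6
    rw [b4] at h
    have e1 : ∑ q : S, (ψ α q).1 * (ψ α q).2 = ∑ q ∈ S,
        (if ¬ Ev (𝔔 q) α ∧ ¬ Sq1 (𝔔 q) (α * ((q : L) * θ)) then (1 : ZMod 2) else 0) := by
      rw [← Finset.sum_coe_sort S]
      refine Finset.sum_congr rfl fun q _ => ?_
      simp only [hψd, cl]
      by_cases he : Ev (𝔔 q) α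
      · rw [if_pos he, zero_mul, if_neg (fun h => h.1 he)]
      · by_cases hs : Sq1 (𝔔 q) (α * (((q : ℕ) : L) * θ))
        · have hu : U0 (𝔔 q) (((q : ℕ) : L) * θ) α := ⟨fun h => absurd h he, fun _ => hs⟩
          rw [if_neg he, if_pos hu, mul_zero, if_neg (fun h => h.2 hs)]
        · have hu : ¬ U0 (𝔔 q) (((q : ℕ) : L) * θ) α := fun h => hs (h.2 he)
          rw [if_neg he, if_neg hu, mul_one, if_pos ⟨he, hs⟩]
    rw [e1, Finset.sum_ite, Finset.sum_const_zero, add_zero, Finset.sum_const, nsmul_eq_mul,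
      mul_one]
    exact (ZMod.natCast_eq_zero_iff_even).2 h
  obtain ⟨J, hJ⟩ := hLIN S Λ hiso
  obtain ⟨J', hJ'd⟩ : ∃ J' : Finset ℕ, J' = S.filter fun q => ∃ h : q ∈ S, (⟨q, h⟩ : S) ∈ J :=
    ⟨_, rfl⟩
  have hJ'S : J' ⊆ S := by rw [hJ'd]; exact Finset.filter_subset _ _
  refine ⟨J', hJ'S, fun h hα hN hev0 hu0 hloc hlocR => ?_⟩
  obtain ⟨α, hαdef⟩ : ∃ α : L, α = aeval θ h := ⟨_, rfl⟩
  rw [← hαdef] at hα hN hev0 hu0 ⊢
  have hαM : α ∈ M := by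
    rw [hMm]
    refine ⟨hα, hN, fun 𝔓 h𝔓 => ?_, h, hαdef.symm, hloc, hlocR⟩
    refine hev0 𝔓 fun q hq hO => ?_
    rcases (hpq q (hJ'S hq)).2.2.2.2.2 𝔓 hO with rfl | rfl
    · exact (hpq q (hJ'S hq)).2.2.1.ne
    · exact absurd rfl (h𝔓 q (hJ'S hq))
  have hz : ψ α = 0 := by
    refine hJ _ ⟨α, hαM, rfl⟩ (fun q hq => ?_) (fun q hq => ?_)
    · have hqJ : (q : ℕ) ∈ J' := by
        rw [hJ'd]
        exact Finset.mem_filter.2 ⟨q.2, q.2, hq⟩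
      rw [hψd]
      exact if_pos (hu0 q hqJ _ (hpq q q.2).2.1 (hpq q q.2).2.2.2.1)
    · have hqJ : (q : ℕ) ∉ J' := by
        rw [hJ'd]
        exact fun h => hq (Finset.mem_filter.1 h).2.2
      rw [hψd]
      refine if_pos (hev0 (𝔔 q) fun q' hq' hO => ?_)
      have : q' = (q : ℕ) := huniq q' (hJ'S hq') q q.2 _ hO (hpq q q.2).2.1
      rw [this] at hq'
      exact absurd hq' hqJ
  have hz1 : ∀ q ∈ S, Ev (𝔔 q) α ∧ U0 (𝔔 q) ((q : L) * θ) α := by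
    intro q hq
    have h1 := congrFun hz ⟨q, hq⟩
    rw [hψd] at h1
    have h2 := congrArg Prod.fst h1
    have h3 := congrArg Prod.snd h1
    constructor
    · by_contra hn
      have : (if Ev (𝔔 q) α then (0 : ZMod 2) else 1) = 0 := h2
      rw [if_neg hn] at this
      exact one_ne_zero this
    · by_contra hn
      have : (if U0 (𝔔 q) ((q : L) * θ) α then (0 : ZMod 2) else 1) = 0 := h3
      rw [if_neg hn] at this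
      exact one_ne_zero this
  have hEv : ∀ 𝔓 : HeightOneSpectrum (𝓞 L), Ev 𝔓 α := by
    intro 𝔓
    by_cases h : ∀ q ∈ S, 𝔓 ≠ 𝔔 q
    · exact ((hMm α).1 hαM).2.2.1 𝔓 h
    · push Not at h
      obtain ⟨q, hq, rfl⟩ := h
      exact (hz1 q hq).1
  have hSq : ∀ q ∈ S, ∀ 𝔓 : HeightOneSpectrum (𝓞 L), Ov (𝔮 q) 𝔓 → Sq1 𝔓 α := by
    intro q hq
    refine hNS g W F L f θ S 𝔮 r P hg hc hsq hS q hq (hcg q hq) α hα hN
      (fun 𝔓 _ _ => hEv 𝔓) (fun 𝔓 h𝔓 hv => ?_)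
    rcases (hpq q hq).2.2.2.2.2 𝔓 h𝔓 with rfl | rfl
    · exact absurd hv (hpq q hq).2.2.1.ne
    · exact (hz1 q hq).2.1 (hz1 q hq).1
  by_contra hns
  obtain ⟨Λ', hΛ, hL⟩ := hSD g F L f θ hc hsq α hα hEv
  refine hnb (hκ L f θ B N W S 𝔮 r P hκW hS hc hF.ht hBN hF.con α Λ' hα hN hL ?_ (Or.inl hns))
  intro q hq
  obtain ⟨hb, hs⟩ := sep_q hg hS hq (hcg q hq)
  exact hTV g F L f θ hc hsq α Λ' hα hΛ hL (𝔮 q) (hS q hq).2.2.2.2.2.1 hb hs (hSq q hq)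

end Pool.Agent.N771.PF
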